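import Pool.Agent.H23.PL.Targets

/-! pld_modules row NGD: few numbers have no good part. -/

set_option autoImplicit false

namespace Pool.Agent.H80.PL

open Finset
open Pool.Agent.H23.PL

lemma pt_mul_prime (B : Finset ℕ) (m p : ℕ) (hm : 1 ≤ m) (hp : p.Prime) (hB : p ∉ B) :
    pt B (m * p) = pt B m := by
  unfold pt
  refine Finset.prod_congr rfl fun q hq => ?_
  have hqp : q ≠ p := fun h => hB (h ▸ hq)
  rw [Nat.factorization_mul (by omega) hp.ne_zero]
  have : p.factorization q = 0 := by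
    rw [hp.factorization]
    exact Finsupp.single_eq_of_ne hqp
  simp [this]

open Classical in
theorem pf_NGD (hLGT : T_LGT) (hMR2 : T_MR2) (hIND : T_IND) (hGDJ : T_GDJ) : T_NGD := by
  obtain ⟨C1, hC1, hL⟩ := hLGT
  obtain ⟨C2, hC2, hM, _⟩ := hMR2
  obtain ⟨c, y1, hc, hc1, hG⟩ := hGDJ
  refine ⟨2 * C1 + C1 * C2, c, max y1 3, by positivity, hc, hc1, ?_⟩
  intro J x y hy hdec hyx
  have hy3 : ∀ j, j ≤ J → 3 ≤ y j := fun j hj => le_trans (le_max_right _ _) (hy j hj)
  have hyy1 : ∀ j, j ≤ J → y1 ≤ y j := fun j hj => le_trans (le_max_left _ _) (hy j hj)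
  have hstep : ∀ j, j < J → y (j + 1) ≤ y j := by
    intro j hj
    refine (hdec j hj).trans ?_
    have h1 : (1 : ℝ) ≤ y j := by linarith [hy3 j hj.le]
    calc y j ^ (1 / 16 : ℝ) ≤ y j ^ (1 : ℝ) := Real.rpow_le_rpow_of_exponent_le h1 (by norm_num)
      _ = y j := Real.rpow_one _
  have hmono : ∀ i j, i ≤ j → j ≤ J → y j ≤ y i := by
    intro i j hij
    induction j, hij using Nat.le_induction with
    | base => intro _; exact le_rfl
    | succ k hk ih =>
      intro hkJ
      exact (hstep k (by omega)).trans (ih (by omega))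
  have hy0 : 3 ≤ y 0 := hy3 0 (Nat.zero_le _)
  have hx3 : (3 : ℝ) ≤ x := hy0.trans hyx
  have hx1 : 1 ≤ x := by
    have : (1 : ℝ) ≤ x := by linarith
    exact_mod_cast this
  have hlog0 : 1 ≤ Real.log (y 0) := by
    rw [Real.le_log_iff_exp_le (by linarith)]
    have := Real.exp_one_lt_three
    linarith
  have hlogx : 0 ≤ Real.log x := Real.log_nonneg (by linarith)
  set A : Set ℕ := {r | ∀ j, j < J → ¬ Gd (y j) (pt (PR (y (j + 1)) (y j)) r)} with hA
  have hAm : ∀ m p : ℕ, 1 ≤ m → p.Prime → y 0 < p → (m * p ∈ A ↔ m ∈ A) := by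
    intro m p hm hp hyp
    have hpt : ∀ j, j < J → pt (PR (y (j + 1)) (y j)) (m * p) = pt (PR (y (j + 1)) (y j)) m := by
      intro j hj
      refine pt_mul_prime _ m p hm hp ?_
      intro hmem
      unfold PR at hmem
      rw [mem_filter, mem_Ioc] at hmem
      have h1 : (p : ℝ) ≤ y j := by
        have h2 : (p : ℝ) ≤ (⌊y j⌋₊ : ℝ) := by exact_mod_cast hmem.1.2
        exact h2.trans (Nat.floor_le (by linarith [hy3 j hj.le]))
      have h3 := hmono 0 j (Nat.zero_le _) hj.le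
      linarith
    simp only [hA, Set.mem_ofPred_eq]
    constructor
    · intro h j hj
      rw [← hpt j hj]
      exact h j hj
    · intro h j hj
      rw [hpt j hj]
      exact h j hj
  have h1 := hL A x (y 0) (by linarith) hx1 hAm
  -- the sum
  set B : Fin J → Finset ℕ := fun j => PR (y (j + 1)) (y j) with hB
  have hBx : ∀ j, ∀ p ∈ B j, p.Prime ∧ p ≤ x := by
    intro j p hp
    simp only [hB, PR, mem_filter, mem_Ioc] at hp
    refine ⟨hp.2, ?_⟩
    have h2 : (⌊y j⌋₊ : ℝ) ≤ x := by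
      refine (Nat.floor_le (by linarith [hy3 j j.2.le])).trans ?_
      exact (hmono 0 j (Nat.zero_le _) j.2.le).trans hyx
    have h3 : ⌊y j⌋₊ ≤ x := by exact_mod_cast h2
    exact hp.1.2.trans h3
  have hlt : ∀ i j : Fin J, i < j → Disjoint (B i) (B j) := by
    intro i j hij
    rw [Finset.disjoint_left]
    intro p hpi hpj
    simp only [hB, PR, mem_filter, mem_Ioc] at hpi hpj
    have h2 : ⌊y j⌋₊ ≤ ⌊y (i + 1)⌋₊ := Nat.floor_le_floor (hmono (i + 1) j hij j.2.le)
    have h3 := hpi.1.1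
    have h4 := hpj.1.2
    omega
  have hdisj : ∀ i j, i ≠ j → Disjoint (B i) (B j) := by
    intro i j hij
    rcases lt_or_gt_of_ne hij with h | h
    · exact hlt i j h
    · exact (hlt j i h).symm
  have h2 := hIND J x B (fun j => {a | ¬ Gd (y j) a}) (fun j => (1 - c) * ZB (B j)) hBx hdisj
    (by
      intro j S hS
      exact hG (y (j + 1)) (y j) S (hyy1 j j.2.le) (by linarith [hy3 (j + 1) j.2])
        (hdec j j.2) hS)
  have hsub : univ.biUnion B ⊆ PR 0 x := by
    intro p hp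
    rw [mem_biUnion] at hp
    obtain ⟨j, _, hj⟩ := hp
    obtain ⟨h3, h4⟩ := hBx j p hj
    unfold PR
    rw [mem_filter, mem_Ioc]
    refine ⟨⟨?_, ?_⟩, h3⟩
    · simpa using h3.pos
    · simpa using h4
  have hprod : (∏ j, (1 - c) * ZB (B j)) * ZB (PR 0 x \ univ.biUnion B) =
      (1 - c) ^ J * ZB (PR 0 x) := by
    rw [Finset.prod_mul_distrib, Finset.prod_const, Finset.card_univ, Fintype.card_fin, mul_assoc]
    congr 1
    unfold ZB
    rw [← Finset.prod_biUnion (fun i _ j _ hij => hdisj i j hij), mul_comm]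
    exact Finset.prod_sdiff hsub
  rw [hprod] at h2
  have hc0 : 0 ≤ (1 - c) ^ J := pow_nonneg (by linarith) J
  have h5 : ∀ S : Finset ℕ, (∀ m, m ∈ S ↔ m ∈ Icc 1 x ∧ m ∈ A) →
      ∑ m ∈ S, 1 / (m : ℝ) ≤ (1 - c) ^ J * (C2 * Real.log x) := by
    intro S hS
    refine le_trans (le_of_eq ?_) (h2.trans (mul_le_mul_of_nonneg_left (hM x (by linarith)) hc0))
    refine Finset.sum_congr ?_ (fun _ _ => rfl)
    ext m
    rw [hS]
    simp only [mem_filter, hA, hB, Set.mem_ofPred_eq]
    constructor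
    · rintro ⟨h, h'⟩
      exact ⟨h, fun j => h' j j.2⟩
    · rintro ⟨h, h'⟩
      exact ⟨h, fun j hj => h' ⟨j, hj⟩⟩
  have hxpos : (0 : ℝ) ≤ x := by linarith
  have hCx : 0 ≤ C1 * (x : ℝ) := by positivity
  have h7 : C1 * x * (1 + Real.log (y 0)) ≤ C1 * x * (2 * Real.log (y 0)) :=
    mul_le_mul_of_nonneg_left (by linarith) (by positivity)
  have e1 : 0 ≤ C1 * C2 * x * Real.log (y 0) := by positivity
  have e2 : 0 ≤ 2 * C1 * x * ((1 - c) ^ J * Real.log x) := by positivity
  have e3 : (2 * C1 + C1 * C2) * x * (Real.log (y 0) + (1 - c) ^ J * Real.log x) =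
      C1 * x * (2 * Real.log (y 0)) + C1 * x * ((1 - c) ^ J * (C2 * Real.log x)) +
      (C1 * C2 * x * Real.log (y 0) + 2 * C1 * x * ((1 - c) ^ J * Real.log x)) := by ring
  rw [e3]
  refine le_trans ?_ (le_add_of_nonneg_right (add_nonneg e1 e2))
  refine le_trans ?_ (h1.trans (add_le_add h7 (mul_le_mul_of_nonneg_left (h5 _ fun m => by
    simp only [mem_filter]) hCx)))
  refine le_of_eq (congrArg (fun t : ℕ => (t : ℝ) * Real.log x) (congrArg Finset.card ?_))
  ext r
  simp only [mem_filter, hA, Set.mem_ofPred_eq]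

end Pool.Agent.H80.PL
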